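import Pool.Agent.NDR.StmtsM

/-!
# Squad NDL, row GLW
-/

set_option autoImplicit false

namespace Pool.Agent.NDR.H65

open Finset

theorem thm_toL65 {σ K : Type} [Fintype σ] [Field K] (F : MvPolynomial σ K) (k : σ)
    (g : (σ → ℤ) →₀ K) :
    thm (toL F) k g = ∑ α ∈ F.support, ∑ m ∈ g.support,
      Finsupp.single (m + fun i => ((α i : ℕ) : ℤ))
        (((α k : ℕ) : K) * MvPolynomial.coeff α F * g m) := by
  unfold thm toL
  change Finsupp.sum (∑ α ∈ F.support, Finsupp.single (fun i => ((α i : ℕ) : ℤ))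
    (MvPolynomial.coeff α F)) _ = _
  rw [← Finsupp.sum_finsetSum_index]
  · refine Finset.sum_congr rfl fun α _ => ?_
    rw [Finsupp.sum_single_index]
    · refine Finset.sum_congr rfl fun m _ => ?_
      simp
    · simp [Finsupp.sum]
  · intro a
    simp [Finsupp.sum]
  · intro a b c
    rw [← Finsupp.sum_add]
    refine Finset.sum_congr rfl fun m _ => ?_
    show Finsupp.single (m + a) (((a k : ℤ) : K) * (b + c) * g m) =
      Finsupp.single (m + a) (((a k : ℤ) : K) * b * g m) +
        Finsupp.single (m + a) (((a k : ℤ) : K) * c * g m)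
    rw [← Finsupp.single_add]
    congr 1
    ring

theorem glw : GlvStmt := by
  classical
  intro σ K _ _ F I K₀ P m₀ h hKP hPI hm₀ hF hh hrel
  obtain ⟨n, hn⟩ : ∃ n : ℕ, ∀ k ∈ K₀, ∀ m ∈ (h k).support, ∀ i,
      0 ≤ (n : ℤ) - m₀ i + m i := by
    refine ⟨∑ k ∈ K₀, ∑ m ∈ (h k).support, ∑ i, (m₀ i - m i).natAbs, ?_⟩
    intro k hk m hm i
    have h1 : (m₀ i - m i).natAbs ≤ ∑ i, (m₀ i - m i).natAbs :=
      Finset.single_le_sum (f := fun i => (m₀ i - m i).natAbs) (fun _ _ => Nat.zero_le _)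
        (Finset.mem_univ i)
    have h2 : ∑ i, (m₀ i - m i).natAbs ≤ ∑ m ∈ (h k).support, ∑ i, (m₀ i - m i).natAbs :=
      Finset.single_le_sum (f := fun m : σ → ℤ => ∑ i, (m₀ i - m i).natAbs)
        (fun _ _ => Nat.zero_le _) hm
    have h3 : ∑ m ∈ (h k).support, ∑ i, (m₀ i - m i).natAbs ≤
        ∑ k ∈ K₀, ∑ m ∈ (h k).support, ∑ i, (m₀ i - m i).natAbs :=
      Finset.single_le_sum (f := fun k => ∑ m ∈ (h k).support, ∑ i, (m₀ i - m i).natAbs)
        (fun _ _ => Nat.zero_le _) hk
    have h4 : (m₀ i - m i) ≤ ((m₀ i - m i).natAbs : ℤ) := Int.le_natAbs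
    have h5 : (((m₀ i - m i).natAbs : ℕ) : ℤ) ≤
        ((∑ k ∈ K₀, ∑ m ∈ (h k).support, ∑ i, (m₀ i - m i).natAbs : ℕ) : ℤ) := by
      exact_mod_cast h1.trans (h2.trans h3)
    linarith
  let e : (σ → ℤ) → (σ →₀ ℕ) := fun m =>
    Finsupp.equivFunOnFinite.symm (fun i => if i ∈ P then 0 else ((n : ℤ) - m₀ i + m i).toNat)
  have he : ∀ m i, e m i = if i ∈ P then 0 else ((n : ℤ) - m₀ i + m i).toNat := fun m i => rfl
  let L : ((σ → ℤ) →₀ K) →ₗ[K] MvPolynomial σ K :=
    Finsupp.lsum K fun m => MvPolynomial.monomial (e m)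
  have hL : ∀ m c, L (Finsupp.single m c) = MvPolynomial.monomial (e m) c := by
    intro m c
    show (Finsupp.lsum K fun m => MvPolynomial.monomial (e m)) (Finsupp.single m c) = _
    simp
  refine ⟨n, fun k => ∑ m ∈ (h k).support, MvPolynomial.monomial (e m) (h k m), ?_⟩
  have h1 : L (Finsupp.single m₀ 1) =
      ∏ i ∈ Finset.univ.filter (fun i => i ∉ P), MvPolynomial.X i ^ n := by
    rw [hL, MvPolynomial.monomial_eq, Finset.prod_filter, Finsupp.prod_fintype _ _ (by simp)]
    rw [map_one, one_mul]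
    refine Finset.prod_congr rfl fun i _ => ?_
    rw [he]
    by_cases hi : i ∈ P
    · simp [hi]
    · simp [hi]
  have h2 : ∀ k ∈ K₀, L (thm (toL F) k (h k)) =
      (∑ α ∈ F.support.filter (fun α => α k ≠ 0),
        MvPolynomial.monomial (α.erase k) (MvPolynomial.coeff α F)) *
      ∑ m ∈ (h k).support, MvPolynomial.monomial (e m) (h k m) := by
    intro k hk
    rw [thm_toL65, map_sum, Finset.sum_filter, Finset.sum_mul]
    refine Finset.sum_congr rfl fun α hα => ?_
    rw [map_sum]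
    by_cases hk0 : α k = 0
    · rw [if_neg (by simpa using hk0), zero_mul]
      refine Finset.sum_eq_zero fun m _ => ?_
      simp [hk0]
    · obtain ⟨ha, hb⟩ := hF k hk α hα hk0
      rw [if_pos hk0, Finset.mul_sum]
      refine Finset.sum_congr rfl fun m hm => ?_
      obtain ⟨_, hc, hd⟩ := hh k (hPI (hKP hk)) m hm
      rw [hL, MvPolynomial.monomial_mul, ha, Nat.cast_one, one_mul]
      congr 1
      · congr 1
        ext i
        rw [Finsupp.add_apply, he, he]
        by_cases hi : i ∈ P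
        · by_cases hik : i = k
          · subst hik
            simp [hi]
          · rw [Finsupp.erase_ne hik, hb i hi hik]
            simp [hi]
        · have hik : i ≠ k := fun hik => hi (hik ▸ hKP hk)
          rw [Finsupp.erase_ne hik, if_neg hi, if_neg hi]
          have := hn k hk m hm i
          rw [Pi.add_apply]
          omega
  have h3 : ∀ k ∈ I, k ∉ K₀ → h k = 0 := by
    intro k hk hk0
    by_contra hne
    obtain ⟨m, hm⟩ := Finsupp.support_nonempty_iff.mpr hne
    exact hk0 (hh k hk m hm).1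
  have h4 : ∑ k ∈ I, thm (toL F) k (h k) = ∑ k ∈ K₀, thm (toL F) k (h k) := by
    symm
    refine Finset.sum_subset (hKP.trans hPI) fun k hk hk0 => ?_
    rw [h3 k hk hk0]
    simp [thm, Finsupp.sum]
  have h5 := congrArg L hrel
  rw [h4, map_sum, h1, Finset.sum_congr rfl h2] at h5
  have h6 : (∏ i ∈ Finset.univ.filter (fun i => i ∉ P), (MvPolynomial.X i : MvPolynomial σ K) ^ n) =
      _ := h5.symm
  rw [Finset.prod_filter] at h6 ⊢
  simp only [Finset.sum_filter] at h6 ⊢
  exact h6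

end Pool.Agent.NDR.H65
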